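import Pool.Agent.H91.BiPois

set_option autoImplicit false

open MeasureTheory AddCircle H91.BiPois in
theorem Pool.Agent.Results.MP_a0f451_an.BoundedDensity.result :
    ∀ ν : ℤ → ℂ, IsAF ν →
    (∃ C : ℝ, ∀ z : ℂ, ‖z‖ < 1 →
      ‖act ν (P1 z)‖ ≤ C * (1 + Real.log ((1 + ‖z‖) / (1 - ‖z‖)))) →
    ∃ φ : UnitAddCircle → ℂ, MemLp φ ⊤ haarAddCircle ∧ ∀ g : C(UnitAddCircle, ℂ),
      Summable (fun n => fourierCoeff g n * ν (-n)) ∧
        act ν g = ∫ x, g x * φ x ∂haarAddCircle :=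
  main
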